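import Pool.Agent.H.MP_0896da_co.B

namespace Pool.Agent.Results.MP_dccd56_co.No

open Pool.Agent.H.MP_0896da_co Filter

theorem result :
    Tendsto (fun n : ℕ => (Cn n : ℝ) / ((n : ℝ) ^ 2 * Real.log n)) atTop atTop ∧
    Tendsto (fun n : ℕ => (Dn n : ℝ) / ((n : ℝ) ^ ((3 : ℝ) / 2) * √(Real.log n))) atTop atTop :=
  ⟨C_tend, D_tend⟩

end Pool.Agent.Results.MP_dccd56_co.No
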